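import Pool.Agent.Q278.ZD

/-!
# MP_d8c653_nt: the binomial coefficient `C([p/3],[p/12])` modulo `p`

For every prime `p` congruent to `1` modulo `4`:

* if `p` is `1` modulo `12`, then `p = x^2 + 9 y^2` with `x` congruent to `1` modulo `3`, and
  `(-1)^[p/12] C([p/3],[p/12])` is congruent to `2 x` modulo `p` for every such `x`;
* if `p` is `5` modulo `12`, then `2 p = x^2 + 9 y^2` with `x` congruent to `1` modulo `3`, and
  `(-1)^[p/12] C([p/3],[p/12])` is congruent to `x` modulo `p` for every such `x`.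

Proof: with `f_k = (X^k; X^k)_∞`, the function `z = X f_1^4 f_6^8 / (f_2^8 f_3^4)` satisfies
`1 - z = f_1 f_3^5 / (f_2^5 f_6)` and `X z' = z f_1^4 f_3^4 / (f_2^2 f_6^2)`. The binomial
coefficient is the residue of `(1 - z)^[p/3] z^(-[p/12]) dz / z`, which is modulo `p` the
coefficient of `X^[p/12]` in a theta series of the form `x^2 + 9 y^2`.
-/

set_option autoImplicit false

namespace Pool.Agent.Results.MP_d8c653_nt.Full

theorem result (p : ℕ) (hp : p.Prime) (h4 : p % 4 = 1) :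
    (p % 12 = 1 ∨ p % 12 = 5) ∧
    (p % 12 = 1 →
      (∃ x y : ℤ, (p : ℤ) = x ^ 2 + 9 * y ^ 2 ∧ x % 3 = 1) ∧
      ∀ x y : ℤ, (p : ℤ) = x ^ 2 + 9 * y ^ 2 → x % 3 = 1 →
        (-1) ^ (p / 12) * ((p / 3).choose (p / 12) : ℤ) ≡ 2 * x [ZMOD p]) ∧
    (p % 12 = 5 →
      (∃ x y : ℤ, 2 * (p : ℤ) = x ^ 2 + 9 * y ^ 2 ∧ x % 3 = 1) ∧
      ∀ x y : ℤ, 2 * (p : ℤ) = x ^ 2 + 9 * y ^ 2 → x % 3 = 1 →
        (-1) ^ (p / 12) * ((p / 3).choose (p / 12) : ℤ) ≡ x [ZMOD p]) := by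
  refine ⟨?_, fun h => ⟨ZT.exists_one p hp h, fun x y h1 h2 => ZT.main_one p hp h x y h1 h2⟩,
    fun h => ⟨ZT.exists_five p hp h, fun x y h1 h2 => ZT.main_five p hp h x y h1 h2⟩⟩
  have h3 : p % 3 ≠ 0 := by
    intro h
    have := (Nat.prime_dvd_prime_iff_eq Nat.prime_three hp).1 (Nat.dvd_of_mod_eq_zero h)
    omega
  omega

end Pool.Agent.Results.MP_d8c653_nt.Full
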